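import Mathlib

/-!
# Chinese remainder theorem for the positions of the primes
-/

namespace Pool.Agent.Work.MP_bd2dcc_nt.RG

open Finset

private noncomputable def qq (B h : ℕ) : ℕ := Nat.nth Nat.Prime (B + h)

private theorem qq_prime (B h : ℕ) : (qq B h).Prime :=
  Nat.nth_mem_of_infinite Nat.infinite_setOfPred_prime _

private theorem qq_lt (B h : ℕ) : B + h < qq B h := by
  have := Nat.add_two_le_nth_prime (B + h)
  unfold qq
  omega

private theorem qq_inj (B h k : ℕ) (hk : h ≠ k) : qq B h ≠ qq B k := by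
  intro h1
  have h2 := (Nat.nth_strictMono Nat.infinite_setOfPred_prime).injective h1
  omega

private theorem cop_primorial (p D : ℕ) (hp : p.Prime) (hD : D < p) :
    Nat.Coprime p (primorial D) := by
  unfold primorial
  apply Nat.Coprime.prod_right
  intro q hq
  rw [Finset.mem_filter, Finset.mem_range] at hq
  rw [Nat.coprime_primes hp hq.2]
  omega

theorem crt2 (R D₀ : ℕ) (hD : 2 ≤ D₀) (S : Finset ℕ) (hS : ∀ l ∈ S, l < R) :
    ∃ W v : ℕ, 0 < W ∧ R * primorial D₀ < W ∧ primorial D₀ ∣ W ∧
      (∀ l ∈ S, Nat.Coprime (v + l * primorial D₀) W) ∧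
      (∀ h < R * primorial D₀, (¬ ∃ l ∈ S, h = l * primorial D₀) →
        ∃ p : ℕ, p.Prime ∧ p ∣ W ∧ p ∣ v + h) := by
  classical
  obtain ⟨d, hd⟩ : ∃ d, d = primorial D₀ := ⟨_, rfl⟩
  have hd0 : 0 < d := hd ▸ primorial_pos D₀
  rw [← hd]
  obtain ⟨M, hM⟩ : ∃ M, M = R * d := ⟨_, rfl⟩
  set Q : ℕ → ℕ := qq (M + D₀) with hQdef
  have hQp : ∀ h, (Q h).Prime := fun h => qq_prime _ h
  have hQlt : ∀ h, M + D₀ + h < Q h := fun h => qq_lt _ h
  have hQinj : ∀ h k, h ≠ k → Q h ≠ Q k := fun h k => qq_inj _ h k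
  set s : ℕ → ℕ := fun i => if i < M then Q i else d with hs
  set t : Finset ℕ := (range (M + 1)).filter (fun i => i = M ∨ ¬ ∃ l ∈ S, i = l * d) with ht
  set a : ℕ → ℕ := fun i => if i < M then Q i - i else 1 with ha
  have hslt : ∀ i, i < M → s i = Q i := fun i hi => by simp [hs, hi]
  have hsM : s M = d := by simp [hs]
  have hMt : M ∈ t := by
    rw [ht, mem_filter, mem_range]
    exact ⟨by omega, Or.inl rfl⟩
  have hcQd : ∀ h, Nat.Coprime (Q h) d := by
    intro h
    rw [hd]
    exact cop_primorial _ _ (hQp h) (by have := hQlt h; omega)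
  have hsne : ∀ i ∈ t, s i ≠ 0 := by
    intro i _
    simp only [hs]
    split_ifs
    · exact (hQp i).ne_zero
    · exact hd0.ne'
  have hpair : Set.Pairwise (t : Set ℕ) (Function.onFun Nat.Coprime s) := by
    have key : ∀ i k, i < k → k ≤ M → Nat.Coprime (s i) (s k) := by
      intro i k hik hk
      rcases lt_or_eq_of_le hk with h1 | h1
      · rw [hslt i (by omega), hslt k h1]
        exact (Nat.coprime_primes (hQp i) (hQp k)).2 (hQinj i k (by omega))
      · rw [h1, hsM, hslt i (by omega)]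
        exact hcQd i
    intro i hi k hk hik
    have hi' : i < M + 1 := mem_range.1 (mem_filter.1 (mem_coe.1 hi)).1
    have hk' : k < M + 1 := mem_range.1 (mem_filter.1 (mem_coe.1 hk)).1
    rcases lt_or_gt_of_ne hik with h1 | h1
    · exact key i k h1 (by omega)
    · exact (key k i h1 (by omega)).symm
  obtain ⟨v, hv⟩ := Nat.chineseRemainderOfFinset a s t hsne hpair
  obtain ⟨W, hW⟩ : ∃ W, W = ∏ i ∈ t, s i := ⟨_, rfl⟩
  have hW0 : 0 < W := by
    rw [hW]
    exact prod_pos fun i hi => Nat.pos_of_ne_zero (hsne i hi)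
  have hsW : ∀ i ∈ t, s i ∣ W := fun i hi => by rw [hW]; exact dvd_prod_of_mem s hi
  have hvd : v ≡ 1 [MOD d] := by
    have h1 := hv M hMt
    rw [hsM] at h1
    simpa [ha] using h1
  have hdv : ∀ h ∈ t, h < M → Q h ∣ v + h := by
    intro h hht hhM
    have h1 := hv h hht
    rw [hslt h hhM] at h1
    have h2 : a h = Q h - h := by simp [ha, hhM]
    rw [h2] at h1
    have h3 := h1.add_right h
    have h4 := hQlt h
    rw [show Q h - h + h = Q h by omega] at h3
    exact Nat.modEq_zero_iff_dvd.1 (h3.trans (Nat.modEq_zero_iff_dvd.2 dvd_rfl))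
  have hRW : R * d < W := by
    rw [← hM]
    rcases Nat.eq_zero_or_pos M with h0 | h0
    · omega
    · have hd2 : 2 ≤ d := by
        have h1 : 2 ∣ d := by
          rw [hd]
          unfold primorial
          exact dvd_prod_of_mem (fun p => p) (mem_filter.2 ⟨mem_range.2 (by omega), Nat.prime_two⟩)
        exact Nat.le_of_dvd hd0 h1
      have hM1 : 1 < M := by
        rcases Nat.eq_zero_or_pos R with h1 | h1
        · rw [hM, h1] at h0
          omega
        · rw [hM]
          calc 1 < 1 * d := by omega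
            _ ≤ R * d := Nat.mul_le_mul_right _ h1
      have h1t : 1 ∈ t := by
        rw [ht, mem_filter, mem_range]
        refine ⟨by omega, Or.inr ?_⟩
        rintro ⟨l, _, hl⟩
        have : d ∣ 1 := Dvd.intro_left l hl.symm
        have := Nat.le_of_dvd one_pos this
        omega
      have h2 := Nat.le_of_dvd hW0 (hsW 1 h1t)
      rw [hslt 1 hM1] at h2
      have h3 := hQlt 1
      omega
  refine ⟨W, v, hW0, hRW, hsM ▸ hsW M hMt, ?_, ?_⟩
  · intro l hl
    have hlM : l * d < M := by
      rw [hM]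
      exact Nat.mul_lt_mul_of_pos_right (hS l hl) hd0
    rw [hW]
    apply Nat.Coprime.prod_right
    intro i hi
    have hi' : i < M + 1 := mem_range.1 (mem_filter.1 hi).1
    rcases Nat.lt_succ_iff_lt_or_eq.1 hi' with h1 | h1
    · rw [hslt i h1, Nat.coprime_comm, (hQp i).coprime_iff_not_dvd]
      intro h2
      have h3 := hdv i hi h1
      have h4 : i ≠ l * d := by
        intro h5
        rcases (mem_filter.1 hi).2 with h6 | h6
        · omega
        · exact h6 ⟨l, hl, h5⟩
      have h5 := hQlt i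
      rcases lt_or_gt_of_ne h4 with h6 | h6
      · have h7 : Q i ∣ (v + l * d) - (v + i) := Nat.dvd_sub h2 h3
        have h8 := Nat.le_of_dvd (by omega) h7
        omega
      · have h7 : Q i ∣ (v + i) - (v + l * d) := Nat.dvd_sub h3 h2
        have h8 := Nat.le_of_dvd (by omega) h7
        omega
    · rw [h1, hsM]
      have h2 : v + l * d ≡ 1 [MOD d] := by
        have h3 : v + l * d ≡ 1 + 0 [MOD d] :=
          hvd.add (Nat.modEq_zero_iff_dvd.2 (Dvd.intro_left _ rfl))
        simpa using h3
      have h3 := h2.gcd_eq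
      rw [Nat.gcd_one_left] at h3
      exact h3
  · intro h hh hno
    have hhM : h < M := by rw [hM]; exact hh
    have hht : h ∈ t := by
      rw [ht, mem_filter, mem_range]
      exact ⟨by omega, Or.inr hno⟩
    exact ⟨Q h, hQp h, hslt h hhM ▸ hsW h hht, hdv h hht hhM⟩

end Pool.Agent.Work.MP_bd2dcc_nt.RG
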