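import Pool.Agent.Work.MP_bd2dcc_nt.M3
import Pool.Agent.Work.MP_bd2dcc_nt.F2
import Pool.Agent.Work.MP_bd2dcc_nt.RG.Crt2

/-!
# Consecutive primes in prescribed positions
-/

namespace Pool.Agent.Work.MP_bd2dcc_nt.RG

open Finset Pool.Agent.Work.MP_70e905_nt.MT

private theorem card_block (J m b : ℕ) (hm : 0 < m) (hb : b < J) :
    #((univ : Finset (Fin (J * m))).filter (fun i : Fin (J * m) => (i : ℕ) / m = b)) = m := by
  have h1 : ((univ : Finset (Fin (J * m))).filter
      (fun i : Fin (J * m) => (i : ℕ) / m = b)).map Fin.valEmbedding =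
      Ico (b * m) (b * m + m) := by
    ext x
    simp only [mem_map, mem_filter, mem_univ, true_and, Fin.valEmbedding_apply, mem_Ico]
    constructor
    · rintro ⟨i, hi, rfl⟩
      have h2 := Nat.div_add_mod (i : ℕ) m
      have h3 := Nat.mod_lt (i : ℕ) hm
      rw [hi, mul_comm] at h2
      omega
    · rintro ⟨h2, h3⟩
      have h4 : x < J * m := by
        have : (b + 1) * m ≤ J * m := Nat.mul_le_mul_right _ hb
        rw [Nat.add_mul, Nat.one_mul] at this
        omega
      refine ⟨⟨x, h4⟩, ?_, rfl⟩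
      simp only
      exact Nat.div_eq_of_lt_le (by rw [mul_comm] at h2 ⊢; linarith) (by
        rw [Nat.succ_mul]; omega)
  rw [← card_map Fin.valEmbedding, h1, Nat.card_Ico]
  omega

theorem scaleS (N : ℕ) : ∃ K : ℕ, 0 < K ∧ ∀ R : ℕ, ∃ d : ℕ, 0 < d ∧ ∀ S : Finset ℕ, (∀ l ∈ S, l < R) →
    #S = K → ∃ (C X₀ : ℕ) (c₁ : ℝ), 0 < c₁ ∧ 0 < C ∧
    ∀ x : ℕ, X₀ ≤ x → ∃ H : Finset ℕ, c₁ * x / Real.log x ^ K ≤ #H ∧ ∀ t ∈ H,
      Nat.nth Nat.Prime (t + N) ≤ C * x ∧ ∃ n : ℕ, ∀ i ≤ N, ∃ l ∈ S,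
        Nat.nth Nat.Prime (t + i) = n + l * d := by
  classical
  obtain ⟨m, hm, hcfg⟩ := cfg_main (10 * (N + 1)) (N + 1) (by omega) (by omega)
  obtain ⟨K, hK⟩ : ∃ K, K = 10 * (N + 1) * m := ⟨_, rfl⟩
  have hmK : m ≤ K := by
    rw [hK]
    exact Nat.le_mul_of_pos_left m (by omega)
  have hK0 : 0 < K := by omega
  refine ⟨K, hK0, fun R => ?_⟩
  set D₀ : ℕ := max (max (8000 * K ^ 2) R) 2 with hD₀
  set d : ℕ := primorial D₀ with hd
  have hd0 : 0 < d := primorial_pos D₀
  refine ⟨d, hd0, fun S hSR hSK => ?_⟩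
  obtain ⟨W, v, hW, hWR, hprim, hcop, hcomp⟩ := crt2 R D₀ (le_max_right _ _) S hSR
  rw [← hd] at hWR
  obtain ⟨δ₁, c₁, X0, hδ₁, hc₁, hmain⟩ := hcfg K hmK (by rw [hK]) W W (v + R * d) hW
  have e : Fin K ≃ S := (S.equivFinOfCardEq hSK).symm
  have he : ∀ i, ((e i : S) : ℕ) ∈ S := fun i => (e i).2
  refine ⟨2 * W + v + R * d + 1, max X0 1, c₁, hc₁, by omega, fun x hx => ?_⟩
  have hx0 : X0 ≤ x := (le_max_left _ _).trans hx
  have hx1 : 1 ≤ x := (le_max_right _ _).trans hx
  set c : Cfg K := ⟨x, 0, fun _ => W, fun i => v + ((e i : S) : ℕ) * d⟩ with hc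
  have hle : ∀ l ∈ S, l * d ≤ R * d := fun l hl => Nat.mul_le_mul_right d (hSR l hl).le
  have hprim' : primorial (8000 * K ^ 2) ∣ W := by
    refine Dvd.dvd.trans ?_ hprim
    unfold primorial
    refine prod_dvd_prod_of_subset _ _ _ (filter_subset_filter _ (range_subset_range.2 ?_))
    have h1 : 8000 * K ^ 2 ≤ D₀ := (le_max_left _ _).trans (le_max_left _ _)
    omega
  have hok : c.Ok (8000 * K ^ 2) W W (v + R * d) := by
    refine ⟨hW, hprim', fun _ => hW, fun _ => le_rfl, fun _ p _ h => h, fun i => ?_, fun i => ?_, ?_⟩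
    · show v + ((e i : S) : ℕ) * d ≤ (v + R * d) * x
      have h1 := hle _ (he i)
      have h2 : v + R * d ≤ (v + R * d) * x := Nat.le_mul_of_pos_right _ hx1
      omega
    · show Nat.Coprime (W * 0 + (v + ((e i : S) : ℕ) * d)) W
      rw [mul_zero, zero_add]
      exact hcop _ (he i)
    · intro i j hij h
      have h0 : W * (v + ((e j : S) : ℕ) * d) = W * (v + ((e i : S) : ℕ) * d) := h
      have h1 := Nat.eq_of_mul_eq_mul_left hW h0
      have h2 : ((e j : S) : ℕ) = ((e i : S) : ℕ) := Nat.eq_of_mul_eq_mul_right hd0 (by omega)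
      exact hij (e.injective (Subtype.ext h2)).symm
  have hbd : ∀ p : ℕ, p.Prime → ¬ p ∣ W → ¬ bd c.a c.b p := by
    rintro p hp hpW ⟨i, j, hij, h⟩
    have h0 : W * (v + ((e j : S) : ℕ) * d) ≡ W * (v + ((e i : S) : ℕ) * d) [MOD p] := h
    have hcopW : p.gcd W = 1 := (hp.coprime_iff_not_dvd).2 hpW
    have h1 := Nat.ModEq.cancel_left_of_coprime hcopW h0
    have h2 : ((e j : S) : ℕ) * d ≡ ((e i : S) : ℕ) * d [MOD p] := Nat.ModEq.add_left_cancel' v h1
    have hcopd : p.gcd d = 1 := (hp.coprime_iff_not_dvd).2 (fun hh => hpW (hh.trans hprim))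
    have h3 : ((e j : S) : ℕ) ≡ ((e i : S) : ℕ) [MOD p] := Nat.ModEq.cancel_right_of_coprime hcopd h2
    have hpR : p ≤ R := by
      by_contra hlt
      push Not at hlt
      have h5 := h3.eq_of_lt_of_lt ((hSR _ (he j)).trans hlt) ((hSR _ (he i)).trans hlt)
      exact hij (e.injective (Subtype.ext h5)).symm
    refine hpW ((?_ : p ∣ primorial D₀).trans hprim)
    unfold primorial
    refine dvd_prod_of_mem (fun p => p) ?_
    rw [mem_filter, mem_range]
    have h1 : R ≤ D₀ := (le_max_right _ _).trans (le_max_left _ _)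
    exact ⟨by omega, hp⟩
  obtain ⟨G, hG, hGc⟩ := hmain c hok hbd hx0 (fun i => (i : ℕ) / m) (fun b hb => by
    have h1 := card_block (10 * (N + 1)) m b hm hb
    subst hK
    exact h1)
  have hzx : ∀ z ∈ G, x < z ∧ z ≤ 2 * x := by
    intro z hz
    have h := (hG z hz).1
    unfold Cfg.dom at h
    rw [mem_filter, mem_Ioc] at h
    exact h.1
  have hval : ∀ (i : Fin K) (z : ℕ), c.a i * z + c.b i = W * z + v + ((e i : S) : ℕ) * d := by
    intro i z
    show W * z + (v + ((e i : S) : ℕ) * d) = _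
    ring
  have hwin : ∀ z ∈ G, ∀ i ≤ N, ∃ l ∈ S,
      Nat.nth Nat.Prime (Nat.count Nat.Prime (W * z + v) + i) = W * z + v + l * d := by
    intro z hz
    have hz2 : 2 ≤ z := by
      have := (hzx z hz).1
      omega
    refine window (W * z + v) R d N S hSR hd0 ?_ ?_
    · intro h hh hno hprime
      obtain ⟨p, hp, hpW, hpv⟩ := hcomp h hh hno
      have h1 : p ∣ W * z + v + h := by
        rw [add_assoc]
        exact dvd_add (Dvd.dvd.mul_right hpW z) hpv
      have h2 := (Nat.prime_dvd_prime_iff_eq hp hprime).1 h1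
      have h3 : p ≤ W := Nat.le_of_dvd hW hpW
      have h4 : W * 2 ≤ W * z := Nat.mul_le_mul_left W hz2
      omega
    · have h1 := (hG z hz).2.1
      refine h1.trans ?_
      unfold Bz
      -- choose for every block with a prime a position
      set F := S.filter (fun l => (W * z + v + l * d).Prime) with hF
      have h2 : ∀ b ∈ (range (10 * (N + 1))).filter (fun b => ∃ i : Fin K, (i : ℕ) / m = b ∧
          (c.a i * z + c.b i).Prime), ∃ i : Fin K, (i : ℕ) / m = b ∧ ((e i : S) : ℕ) ∈ F := by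
        intro b hb
        obtain ⟨_, i, hi, hp⟩ := mem_filter.1 hb
        refine ⟨i, hi, mem_filter.2 ⟨he i, ?_⟩⟩
        rw [← hval i z]
        exact hp
      have h3 : (range (10 * (N + 1))).filter (fun b => ∃ i : Fin K, (i : ℕ) / m = b ∧
          (c.a i * z + c.b i).Prime) ⊆
          ((univ : Finset (Fin K)).filter (fun i => ((e i : S) : ℕ) ∈ F)).image
            (fun i : Fin K => (i : ℕ) / m) := by
        intro b hb
        obtain ⟨i, hi, hF'⟩ := h2 b hb
        exact mem_image.2 ⟨i, mem_filter.2 ⟨mem_univ _, hF'⟩, hi⟩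
      have h4 : #((univ : Finset (Fin K)).filter (fun i => ((e i : S) : ℕ) ∈ F)) ≤ #F := by
        refine card_le_card_of_injOn (fun i : Fin K => ((e i : S) : ℕ)) ?_ ?_
        · intro i hi
          exact mem_coe.2 (mem_filter.1 (mem_coe.1 hi)).2
        · intro i _ j _ hij
          exact e.injective (Subtype.ext hij)
      exact (card_le_card h3).trans (card_image_le.trans h4)
  have hnear : ∀ z ∈ G, W * z + v ≤ Nat.nth Nat.Prime (Nat.count Nat.Prime (W * z + v)) ∧
      Nat.nth Nat.Prime (Nat.count Nat.Prime (W * z + v)) < W * z + v + R * d := by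
    intro z hz
    obtain ⟨l, hl, he⟩ := hwin z hz 0 (Nat.zero_le N)
    rw [add_zero] at he
    rw [he]
    have := Nat.mul_lt_mul_of_pos_right (hSR l hl) hd0
    omega
  have hbound : ∀ z ∈ G, ∀ l < R, W * z + v + l * d ≤ (2 * W + v + R * d + 1) * x := by
    intro z hz l hl
    have h1 : W * z ≤ W * (2 * x) := Nat.mul_le_mul_left W (hzx z hz).2
    have h2 : l * d ≤ R * d := Nat.mul_le_mul_right d hl.le
    have h3 : v ≤ v * x := Nat.le_mul_of_pos_right v hx1
    have h4 : R * d ≤ R * d * x := Nat.le_mul_of_pos_right _ hx1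
    calc W * z + v + l * d ≤ W * (2 * x) + v * x + R * d * x + x := by omega
      _ = _ := by ring
  refine ⟨G.image (fun z => Nat.count Nat.Prime (W * z + v)), ?_, ?_⟩
  · rw [card_image_of_injOn]
    · exact hGc
    · intro z hz z' hz' h
      have hz := mem_coe.1 hz
      have hz' := mem_coe.1 hz'
      have h1 := hnear z hz
      have h2 := hnear z' hz'
      simp only at h
      rw [h] at h1
      by_contra hne
      rcases Nat.lt_or_gt_of_ne hne with hlt | hlt
      · have h3 : W * (z + 1) ≤ W * z' := Nat.mul_le_mul_left W hlt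
        rw [Nat.mul_add, Nat.mul_one] at h3
        omega
      · have h3 : W * (z' + 1) ≤ W * z := Nat.mul_le_mul_left W hlt
        rw [Nat.mul_add, Nat.mul_one] at h3
        omega
  · intro t ht
    obtain ⟨z, hz, rfl⟩ := mem_image.1 ht
    have hw := hwin z hz
    refine ⟨?_, W * z + v, hw⟩
    obtain ⟨l, hl, hle⟩ := hw N le_rfl
    rw [hle]
    exact hbound z hz l (hSR l hl)

end Pool.Agent.Work.MP_bd2dcc_nt.RG
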