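import Pool.Agent.Work.MP_bd2dcc_nt.RG.Ram
import Pool.Agent.Work.MP_bd2dcc_nt.RG.Scale

/-!
# Monochromatic configurations of gaps between consecutive primes
-/

namespace Pool.Agent.Work.MP_bd2dcc_nt.RG

open Finset

/-- The set of all `t` such that the primes number `t`, ..., `t + m` are at most `X`, lie in an
interval of length `B`, and the pattern of every choice of `r + 1` of them has colour `i`. -/
def goodSet (k m r B X : ℕ) (c : (Fin r → ℕ) → Fin k) (i : Fin k) : Set ℕ :=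
  {t : ℕ | Nat.nth Nat.Prime (t + m) ≤ X ∧ Nat.nth Nat.Prime (t + m) ≤ Nat.nth Nat.Prime t + B ∧
    ∀ a : Fin (r + 1) → ℕ, StrictMono a → a (Fin.last r) ≤ m →
      c (fun j => Nat.nth Nat.Prime (t + a j.succ) - Nat.nth Nat.Prime (t + a j.castSucc)) = i}

theorem exists_pos_le {α : Type} (P : Finset α) (f : α → ℝ) (hf : ∀ a ∈ P, 0 < f a) :
    ∃ c : ℝ, 0 < c ∧ ∀ a ∈ P, c ≤ f a := by
  classical
  induction P using Finset.induction_on with
  | empty => exact ⟨1, one_pos, fun a ha => absurd ha (notMem_empty a)⟩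
  | insert a P _ ih =>
    obtain ⟨c, hc, h⟩ := ih fun b hb => hf b (mem_insert_of_mem hb)
    refine ⟨min c (f a), lt_min hc (hf a (mem_insert_self a P)), fun b hb => ?_⟩
    rcases mem_insert.1 hb with rfl | hb
    · exact min_le_right _ _
    · exact (min_le_left _ _).trans (h b hb)

theorem exists_ge {α : Type} (P : Finset α) (f : α → ℕ) : ∃ M : ℕ, ∀ a ∈ P, f a ≤ M :=
  ⟨P.sup f, fun _ ha => le_sup ha⟩

theorem one_set (m K d R : ℕ) (S : Finset ℕ) (hS : ∀ l ∈ S, l < R) (_hd : 0 < d)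
    (C X₀ : ℕ) (c₁ : ℝ) (hc₁ : 0 < c₁) (hC : 0 < C)
    (H : ∀ x : ℕ, X₀ ≤ x → ∃ H : Finset ℕ, c₁ * x / Real.log x ^ K ≤ #H ∧ ∀ t ∈ H,
      Nat.nth Nat.Prime (t + m) ≤ C * x ∧ ∃ n : ℕ, ∀ i ≤ m, ∃ l ∈ S,
        Nat.nth Nat.Prime (t + i) = n + l * d)
    (X : ℕ) (hX : C * (X₀ + 3) ≤ X) (k r : ℕ) (c : (Fin r → ℕ) → Fin k) (i : Fin k)
    (hi : ∀ b : Fin (r + 1) → ℕ, StrictMono b → (∀ j, b j ∈ S) →
      c (fun j => (b j.succ - b j.castSucc) * d) = i) :
    c₁ / (2 * C) * X / Real.log X ^ K ≤ (Set.ncard (goodSet k m r (R * d) X c i) : ℝ) := by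
  have hC0 : (0 : ℝ) < C := by exact_mod_cast hC
  set x := X / C with hx
  have hxX : C * x ≤ X := Nat.mul_div_le X C
  have hxge : X₀ + 3 ≤ x := by
    rw [hx, Nat.le_div_iff_mul_le hC]
    have : (X₀ + 3) * C = C * (X₀ + 3) := Nat.mul_comm _ _
    omega
  have hlt : X < C * (x + 1) := by
    have := Nat.lt_mul_div_succ X hC
    simpa [hx] using this
  have hx2 : (X : ℝ) ≤ 2 * C * x := by
    have h1 : X ≤ 2 * C * x := by
      have h2 : C ≤ C * x := Nat.le_mul_of_pos_right C (by omega)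
      have h3 : C * (x + 1) = C * x + C := by ring
      have h4 : 2 * C * x = C * x + C * x := by ring
      omega
    exact_mod_cast h1
  have hx0 : (0 : ℝ) < x := by
    have : 0 < x := by omega
    exact_mod_cast this
  have hx1 : (1 : ℝ) < x := by
    have : 1 < x := by omega
    exact_mod_cast this
  obtain ⟨H, hH, hHt⟩ := H x (by omega)
  have hfin : (goodSet k m r (R * d) X c i).Finite := by
    refine (Set.finite_Iic X).subset fun t ht => ?_
    have h1 : t + m ≤ Nat.nth Nat.Prime (t + m) := by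
      have := Nat.add_two_le_nth_prime (t + m)
      omega
    have h2 : Nat.nth Nat.Prime (t + m) ≤ X := ht.1
    rw [Set.mem_Iic]
    omega
  have hsub : (H : Set ℕ) ⊆ goodSet k m r (R * d) X c i := by
    intro t ht
    obtain ⟨h1, n, h2⟩ := hHt t (Finset.mem_coe.1 ht)
    choose! l hlS hl using h2
    have hmono : StrictMono (Nat.nth Nat.Prime) := Nat.nth_strictMono Nat.infinite_setOfPred_prime
    have hlt' : ∀ p q : ℕ, p < q → q ≤ m → l p < l q := by
      intro p q hpq hq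
      have h3 := hmono (show t + p < t + q by omega)
      rw [hl p (by omega), hl q hq] at h3
      have h4 : l p * d < l q * d := by omega
      exact Nat.lt_of_mul_lt_mul_right h4
    refine ⟨h1.trans hxX, ?_, fun a ha ham => ?_⟩
    · have h3 := hl m le_rfl
      have h4 := hl 0 (Nat.zero_le m)
      rw [add_zero] at h4
      rw [h3, h4]
      have h5 := Nat.mul_le_mul_right d (hS _ (hlS m le_rfl)).le
      omega
    · have ham' : ∀ j, a j ≤ m := fun j => (ha.monotone (Fin.le_last j)).trans ham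
      have h3 := hi (fun j => l (a j)) (fun p q hpq => hlt' _ _ (ha hpq) (ham' q))
        (fun j => hlS _ (ham' j))
      rw [← h3]
      congr 1
      funext j
      rw [hl _ (ham' _), hl _ (ham' _), Nat.sub_mul]
      omega
  have hcard : (H.card : ℝ) ≤ ((goodSet k m r (R * d) X c i).ncard : ℝ) := by
    have := Set.ncard_le_ncard hsub hfin
    rw [Set.ncard_coe_finset] at this
    exact_mod_cast this
  refine le_trans ?_ (hH.trans hcard)
  have hlx : 0 < Real.log x := Real.log_pos hx1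
  have hlX : Real.log x ≤ Real.log X := by
    refine Real.log_le_log hx0 ?_
    have h1 : x ≤ X := Nat.div_le_self X C
    exact_mod_cast h1
  have h1 : c₁ / (2 * C) * X ≤ c₁ * x := by
    rw [div_mul_eq_mul_div, div_le_iff₀ (by positivity)]
    calc c₁ * X ≤ c₁ * (2 * C * x) := mul_le_mul_of_nonneg_left hx2 hc₁.le
      _ = _ := by ring
  calc c₁ / (2 * C) * X / Real.log X ^ K ≤ c₁ / (2 * C) * X / Real.log x ^ K := by
        refine div_le_div_of_nonneg_left (by positivity) (by positivity) ?_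
        exact pow_le_pow_left₀ hlx.le hlX K
    _ ≤ _ := by
        refine div_le_div_of_nonneg_right h1 (by positivity)

theorem main (k m r : ℕ) : ∃ (B K X₀ : ℕ) (c₀ : ℝ), 0 < c₀ ∧
    ∀ c : (Fin r → ℕ) → Fin k, ∃ i : Fin k, ∀ X : ℕ, X₀ ≤ X →
      c₀ * X / Real.log X ^ K ≤ (Set.ncard (goodSet k m r B X c i) : ℝ) := by
  classical
  obtain ⟨K, hK, hR⟩ := scaleS m
  obtain ⟨R, hram⟩ := ramsey (Fin k) (r + 1) K
  obtain ⟨d, hd, hS⟩ := hR R
  have h : ∀ S ∈ (range R).powersetCard K, ∃ (C X₀ : ℕ) (c₁ : ℝ), 0 < c₁ ∧ 0 < C ∧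
      ∀ x : ℕ, X₀ ≤ x → ∃ H : Finset ℕ, c₁ * x / Real.log x ^ K ≤ #H ∧ ∀ t ∈ H,
        Nat.nth Nat.Prime (t + m) ≤ C * x ∧ ∃ n : ℕ, ∀ i ≤ m, ∃ l ∈ S,
          Nat.nth Nat.Prime (t + i) = n + l * d := by
    intro S hSP
    rw [mem_powersetCard] at hSP
    exact hS S (fun l hl => mem_range.1 (hSP.1 hl)) hSP.2
  choose! C X₀ c₁ hc₁ hC H using h
  obtain ⟨c₀, hc₀, hle⟩ := exists_pos_le ((range R).powersetCard K) (fun S => c₁ S / (2 * C S))
    (fun S hSP => by
      have h1 := hc₁ S hSP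
      have h2 : (0 : ℝ) < C S := by exact_mod_cast hC S hSP
      positivity)
  obtain ⟨M, hM⟩ := exists_ge ((range R).powersetCard K) (fun S => C S * (X₀ S + 3))
  refine ⟨R * d, K, max M 2, c₀, hc₀, fun c => ?_⟩
  obtain ⟨S, hST, hSK, i, hi⟩ := hram (fun b => c (fun j => (b j.succ - b j.castSucc) * d))
    (range R) (by rw [card_range])
  have hSP : S ∈ (range R).powersetCard K := mem_powersetCard.2 ⟨hST, hSK⟩
  refine ⟨i, fun X hX => ?_⟩
  have h1 := one_set m K d R S (fun l hl => mem_range.1 (hST hl)) hd (C S) (X₀ S) (c₁ S)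
    (hc₁ S hSP) (hC S hSP) (H S hSP) X ((hM S hSP).trans ((le_max_left _ _).trans hX)) k r c i hi
  refine le_trans ?_ h1
  have h2 : (0 : ℝ) ≤ Real.log X := Real.log_natCast_nonneg X
  have h3 := hle S hSP
  gcongr

end Pool.Agent.Work.MP_bd2dcc_nt.RG
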