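import Mathlib

/-!
# The finite Ramsey theorem for increasing `s`-tuples
-/

namespace Pool.Agent.Work.MP_bd2dcc_nt.RG

open Finset

private theorem prehom_step (κ : Type) [Fintype κ] (s : ℕ)
    (IH : ∀ M : ℕ, ∃ R : ℕ, ∀ (χ : (Fin s → ℕ) → κ) (T : Finset ℕ), R ≤ #T → ∃ S ⊆ T, #S = M ∧
      ∃ i : κ, ∀ a : Fin s → ℕ, StrictMono a → (∀ j, a j ∈ S) → χ a = i) (n : ℕ) :
    ∃ R : ℕ, ∀ (χ : (Fin (s + 1) → ℕ) → κ) (T : Finset ℕ), R ≤ #T → ∃ S ⊆ T, #S = n ∧
      ∃ col : ℕ → κ, ∀ x ∈ S, ∀ a : Fin s → ℕ, StrictMono a → (∀ j, a j ∈ S ∧ x < a j) →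
        χ (Fin.cons x a) = col x := by
  classical
  induction n with
  | zero =>
    refine ⟨0, fun χ T _ => ⟨∅, by simp, by simp, fun x => χ (fun _ => 0), by simp⟩⟩
  | succ n ih =>
    obtain ⟨Rn, hRn⟩ := ih
    obtain ⟨RM, hRM⟩ := IH Rn
    refine ⟨1 + RM, fun χ T hT => ?_⟩
    have hne : T.Nonempty := card_pos.1 (by omega)
    set x := T.min' hne with hx
    have hxT : x ∈ T := T.min'_mem hne
    have hmin : ∀ y ∈ T.erase x, x < y := fun y hy =>
      lt_of_le_of_ne (T.min'_le y (mem_of_mem_erase hy)) (ne_of_mem_erase hy).symm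
    obtain ⟨S', hS', hS'c, i₀, hi₀⟩ := hRM (fun a => χ (Fin.cons x a)) (T.erase x) (by
      rw [card_erase_of_mem hxT]; omega)
    obtain ⟨S, hS, hSc, col, hcol⟩ := hRn χ S' hS'c.ge
    have hxS : x ∉ S := fun h => lt_irrefl x (hmin x (hS' (hS h)))
    refine ⟨insert x S, ?_, ?_, fun y => if y = x then i₀ else col y, ?_⟩
    · intro y hy
      rcases mem_insert.1 hy with rfl | hy
      · exact hxT
      · exact mem_of_mem_erase (hS' (hS hy))
    · rw [card_insert_of_notMem hxS, hSc]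
    · intro y hy a ha haS
      rcases mem_insert.1 hy with rfl | hy
      · simp only [if_true]
        refine hi₀ a ha (fun j => ?_)
        rcases mem_insert.1 (haS j).1 with h | h
        · exact absurd (haS j).2 (by rw [h]; exact lt_irrefl _)
        · exact hS h
      · have hyx : y ≠ x := fun h => hxS (h ▸ hy)
        simp only [if_neg hyx]
        refine hcol y hy a ha (fun j => ⟨?_, (haS j).2⟩)
        rcases mem_insert.1 (haS j).1 with h | h
        · have h1 := (haS j).2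
          have h2 := hmin y (hS' (hS hy))
          omega
        · exact h

theorem ramsey (κ : Type) [Fintype κ] (s : ℕ) : ∀ M : ℕ, ∃ R : ℕ, ∀ (χ : (Fin s → ℕ) → κ)
    (T : Finset ℕ), R ≤ #T → ∃ S ⊆ T, #S = M ∧
      ∃ i : κ, ∀ a : Fin s → ℕ, StrictMono a → (∀ j, a j ∈ S) → χ a = i := by
  classical
  induction s with
  | zero =>
    intro M
    refine ⟨M, fun χ T hT => ?_⟩
    obtain ⟨S, hS, hSc⟩ := exists_subset_card_eq hT
    exact ⟨S, hS, hSc, χ Fin.elim0, fun a _ _ => by rw [Subsingleton.elim a Fin.elim0]⟩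
  | succ s IH =>
    intro M
    obtain ⟨R, hR⟩ := prehom_step κ s IH (Fintype.card κ * M)
    refine ⟨R, fun χ T hT => ?_⟩
    obtain ⟨S, hS, hSc, col, hcol⟩ := hR χ T hT
    have : Nonempty κ := ⟨χ (fun _ => 0)⟩
    obtain ⟨i, -, hi⟩ := exists_le_card_fiber_of_mul_le_card_of_maps_to
      (s := S) (t := (univ : Finset κ)) (f := col) (n := M)
      (fun _ _ => mem_univ _) univ_nonempty (by rw [card_univ]; exact hSc.ge)
    obtain ⟨S₂, hS₂, hS₂c⟩ := exists_subset_card_eq hi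
    have hmem : ∀ x ∈ S₂, x ∈ S ∧ col x = i := fun x hx => mem_filter.1 (hS₂ hx)
    refine ⟨S₂, fun x hx => hS (hmem x hx).1, hS₂c, i, fun a ha haS => ?_⟩
    have h1 := hcol (a 0) (hmem _ (haS 0)).1 (Fin.tail a) (fun j l hjl => ha (Fin.succ_lt_succ_iff.2 hjl))
      (fun j => ⟨(hmem _ (haS j.succ)).1, ha (Fin.succ_pos j)⟩)
    rw [Fin.cons_self_tail, (hmem _ (haS 0)).2] at h1
    exact h1

end Pool.Agent.Work.MP_bd2dcc_nt.RG
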